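import Pool.Agent.R709.DB.Main

/-!
# Tensor-vanishing maps out of the unit in the bounded derived category

Let `C` be a finite tensor category.  If `f : 𝟙 ⟶ X` and `g : 𝟙 ⟶ Y` are morphisms of `D^b(C)`
with `f ⊗ g = 0`, then there is a nonzero object `Z` of `D^b(C)` such that `f` or `g` is
tensor-nilpotent on `Z`.  (No braiding is needed.)

One takes for `Z` a projective object `P` of `C` with an epimorphism `π : P ⟶ 𝟙`.  If `H⁰(f)` and
`H⁰(g)` are both nonzero they are monomorphisms, since the unit is a simple object, and then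
`f ⊗ g` is nonzero in degree zero.  If `H⁰(f) = 0` then `f` vanishes on `P`, hence
`f ⊗ id_P = 0`, since `π ⊗ id_P` is a split epimorphism.
-/

open CategoryTheory MonoidalCategory

namespace Pool.Agent.Results.MP_93437d_al.TensorVanishing

open Pool.Agent.R709.DB

universe v u w w'

/-- Let `C` be a finite tensor category over a field `k`, and let `f : 𝟙 ⟶ X` and `g : 𝟙 ⟶ Y` be
morphisms in `D^b(C)` with `f ⊗ g = 0`.  Then there is a nonzero object `Z` of `D^b(C)` such that
`f` or `g` is tensor-nilpotent on `Z`. -/
theorem result (k : Type w) [Field k] (C : Type u) [Category.{v} C] [Abelian C] [Linear k C]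
    [MonoidalCategory C] [MonoidalPreadditive C] [RigidCategory C]
    (hC : IsFiniteTensorCategory k C) [HasDerivedCategory.{w'} C] (T : DerivedTensor C)
    (X Y : Db C) (f : unit C ⟶ X) (g : unit C ⟶ Y) (hfg : T.map f g = 0) :
    ∃ Z : Db C, ¬ Limits.IsZero Z ∧ (IsNilpotentOn T f Z ∨ IsNilpotentOn T g Z) :=
  main k hC T f g hfg

end Pool.Agent.Results.MP_93437d_al.TensorVanishing
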